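import Pool.Agent.PFE.StmtsE2

/-! Squad PFE, row ORY: the orthogonal projection (edit of Helper52_PFD/ORT.lean). -/

set_option autoImplicit false

open scoped BigOperators TensorProduct

noncomputable section

namespace Pool.Agent.PFE.H84

open Pool.Agent.PFC.B1 (BiM FS Sep Split)
open Pool.Agent.PFD.D2
open Pool.Agent.PFD.D2b
open Pool.Agent.PFD.D4 (UnmStmt)

/-- elements are determined by the values `lam (x γ)` -/
theorem lam_det {R Γ W I : Type} [CommRing R] [Ring Γ] [Algebra R Γ] [CommGroup W] [Fintype W]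
    [Fintype I] (D : WFS R Γ W I) {x y : Γ} (h : ∀ γ, D.lam (x * γ) = D.lam (y * γ)) : x = y := by
  rw [← D.h2 x, ← D.h2 y]
  refine Finset.sum_congr rfl fun i _ => Finset.sum_congr rfl fun w _ => ?_
  rw [h]

section ee

variable {R Γ A1 W I : Type} [CommRing R] [Ring Γ] [Algebra R Γ] [Ring A1] [Algebra R A1]
  [CommGroup W] [Fintype W] [Fintype I] (D : WFS R Γ W I) (j : Γ →ₐ[R] A1) (tA : A1 →ₗ[R] R)

/-- the map `e` -/
def emap : A1 →ₗ[R] Γ where
  toFun := fun a => ∑ s, tA (a * j (D.fs.b s)) • D.fs.b' s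
  map_add' := fun a b => by
    simp only [add_mul, map_add, add_smul, Finset.sum_add_distrib]
  map_smul' := fun r a => by
    rw [RingHom.id_apply, Finset.smul_sum]
    refine Finset.sum_congr rfl fun s _ => ?_
    rw [smul_mul_assoc, map_smul, smul_assoc]

theorem lam_emap (a : A1) (γ : Γ) : D.lam (emap D j tA a * γ) = tA (a * j γ) := by
  have h1 : γ = ∑ s, D.fs.lam (D.fs.b' s * γ) • D.fs.b s := (D.fs.h1 γ).symm
  conv_rhs => rw [h1]
  change D.lam ((∑ s, tA (a * j (D.fs.b s)) • D.fs.b' s) * γ) = _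
  rw [Finset.sum_mul, map_sum, map_sum, Finset.mul_sum, map_sum]
  refine Finset.sum_congr rfl fun s _ => ?_
  rw [smul_mul_assoc, map_smul, map_smul, mul_smul_comm, map_smul, smul_eq_mul, smul_eq_mul,
    mul_comm]
  rfl

variable {tA} (ts : ∀ a b, tA (a * b) = tA (b * a))

include ts

theorem emap_l (δ : Γ) (a : A1) : emap D j tA (j δ * a) = δ * emap D j tA a := by
  apply lam_det D
  intro γ
  rw [lam_emap, mul_assoc δ, D.sym δ, mul_assoc (emap D j tA a), lam_emap, mul_assoc (j δ), ts,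
    mul_assoc a, ← map_mul j]

omit ts in
theorem emap_r (δ : Γ) (a : A1) : emap D j tA (a * j δ) = emap D j tA a * δ := by
  apply lam_det D
  intro γ
  rw [lam_emap, mul_assoc a, mul_assoc (emap D j tA a), lam_emap, map_mul j]

end ee

theorem ory (gwf : GwfStmt) (lcu : LcuStmt) (rwf : RwfStmt) (unm : UnmStmt) : OryStmt := by
  intro R F Γ Γ0 W A A1 X Ω Ω' _ _ c _ _ _ _ _ _ _ _ _ _ _ _ _ _ _ _ _ _ l G f χ j0 pr0 mu la
    tA hl h1 h2 h3 ms mp mn ts tm
  obtain ⟨D, hDlam, -, -, -⟩ := gwf R Γ W l G hl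
  obtain ⟨D0, hD0, -⟩ := rwf R F Γ Γ0 W (Fin l) c f D
  -- the element `u`
  obtain ⟨u, uc, hu⟩ := (lcu R Γ W (Fin l) D).1 (tA ∘ₗ la.j.toLinearMap) (by
    intro x y
    change tA (la.j (x * y)) = tA (la.j (y * x))
    rw [map_mul la.j, map_mul la.j, ts])
  have hu' : ∀ γ, tA (la.j γ) = D.lam (u * γ) := fun γ => hu γ
  have hfu : ∀ γ0 : Γ0, D0.lam (f.q u * γ0) = mu (j0 γ0) := by
    intro γ0
    obtain ⟨γ, rfl⟩ := f.surj γ0
    rw [← map_mul, hD0, ← hu', tm, la.cj]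
  have hfc : ∀ γ0 : Γ0, f.q u * γ0 = γ0 * f.q u := fun γ0 => mul_comm _ _
  have hinj : ∀ γ0 : Γ0, f.q u * γ0 = 0 → γ0 = 0 := by
    intro γ0 h0
    have h4 : ∀ a, mu (j0 γ0 * a) = 0 := by
      intro a
      rw [← mp, h2, ← hfu, ← mul_assoc, h0, zero_mul, map_zero]
    have h5 := mn _ h4
    rw [← h1 γ0, h5, map_zero]
  have hunit : IsUnit (f.q u) := by
    have h4 : Function.Injective (LinearMap.mulLeft F (f.q u)) := by
      rw [injective_iff_map_eq_zero]
      intro x hx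
      exact hinj x hx
    obtain ⟨v, hv⟩ := LinearMap.injective_iff_surjective.mp h4 1
    have hv' : f.q u * v = 1 := hv
    exact ⟨⟨f.q u, v, hv', by rw [← hfc, hv']⟩, rfl⟩
  obtain ⟨U, hU⟩ := unm R F Γ0 Γ c f u hunit
  obtain ⟨u', hu'def⟩ : ∃ u' : Γ, u' = ((U⁻¹ : Γˣ) : Γ) := ⟨_, rfl⟩
  have huu : u * u' = 1 := by
    rw [hu'def, ← hU]
    exact U.mul_inv
  have huu' : u' * u = 1 := by
    rw [hu'def, ← hU]
    exact U.inv_mul
  have uc' : ∀ γ, u' * γ = γ * u' := fun γ => mul_comm _ _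
  -- the projection
  obtain ⟨e, he⟩ : ∃ e : A1 →ₗ[R] Γ, e = emap D la.j tA := ⟨_, rfl⟩
  have elam : ∀ a γ, D.lam (e a * γ) = tA (a * la.j γ) := fun a γ => by rw [he, lam_emap]
  have el : ∀ δ a, e (la.j δ * a) = δ * e a := fun δ a => by rw [he, emap_l D la.j ts]
  have er : ∀ δ a, e (a * la.j δ) = e a * δ := fun δ a => by rw [he, emap_r D la.j]
  obtain ⟨pr', hpr'⟩ : ∃ pr' : A1 →ₗ[R] Γ, ∀ a, pr' a = u' * e a :=
    ⟨(LinearMap.mulLeft R u') ∘ₗ e, fun a => rfl⟩
  have upr : ∀ a, u * pr' a = e a := fun a => by rw [hpr', ← mul_assoc, huu, one_mul]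
  have prj : ∀ γ, pr' (la.j γ) = γ := by
    intro γ
    have h4 : e (la.j γ) = u * γ := by
      apply lam_det D
      intro δ
      rw [elam, ← map_mul la.j, hu', mul_assoc]
    rw [hpr', h4, ← mul_assoc, huu', one_mul]
  have prl : ∀ γ x, pr' (la.j γ * x) = γ * pr' x := by
    intro γ x
    rw [hpr', hpr', el, ← mul_assoc, uc', mul_assoc]
  have prr : ∀ x γ, pr' (x * la.j γ) = pr' x * γ := by
    intro x γ
    rw [hpr', hpr', er, mul_assoc]
  have hcp : ∀ x, pr0 (la.fb.q x) = f.q (pr' x) := by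
    intro x
    have h4 : f.q u * pr0 (la.fb.q x) = f.q u * f.q (pr' x) := by
      apply lam_det D0
      intro γ0
      obtain ⟨γ, rfl⟩ := f.surj γ0
      rw [mul_assoc, hfu, ← h3, mp, ← map_mul f.q, ← map_mul f.q, hD0, upr, elam, tm,
        map_mul la.fb.q, la.cj]
    exact hunit.mul_left_cancel h4
  refine ⟨{
    fb := la.fb
    j := la.j
    pr := pr'
    pr_j := prj
    pr_l := prl
    pr_r := prr
    cj := la.cj
    cp := hcp
    fr := la.fr }, u, u', rfl, rfl, huu, ?_⟩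
  intro a
  change tA a = G.co (l - 1) 1 (u * pr' a)
  rw [← hDlam, upr, ← mul_one (e a), elam, map_one, mul_one]

end Pool.Agent.PFE.H84
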