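import Pool.Agent.PFE.StmtsE2c

/-! Squad PFE, row SG1: the part of degree `1` of the local algebra at `y`. -/

set_option autoImplicit false

open scoped BigOperators

noncomputable section

namespace Pool.Agent.PFE.H84

section gen

variable {F A X X' S S' : Type} [Field F] [Ring A] [Algebra F A] [Group X] [Fintype X]
  [Group X'] [Fintype X'] [Ring S] [Algebra F S] [Ring S'] [Algebra F S'] {y : A} {l : ℕ}
  {χ : X →* F} {χ' : X' →* F}

theorem mem_N (a : A) : a ∈ Subalgebra.centralizer F {y} ↔ y * a = a * y := by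
  rw [Subalgebra.mem_centralizer_iff]
  constructor
  · intro h
    exact h y rfl
  · rintro h g rfl
    exact h

omit [Fintype X] in
theorem mem_Nx (χ : X →* F) (a : A) (h : a ∈ Subalgebra.centralizer F {y}) :
    a ∈ Nx y χ 1 := by
  show y * a = χ 1 • (a * y)
  rw [map_one, one_smul]
  exact (mem_N a).mp h

theorem p_cong (L : LS F A X S y l χ) {x x' : X} (e : x = x') (a : A) (h : a ∈ Nx y χ x)
    (h' : a ∈ Nx y χ x') : L.p x ⟨a, h⟩ = L.p x' ⟨a, h'⟩ := by
  subst e
  rfl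

/-- the homomorphism of the centraliser of `y` to the part of degree `1` -/
def fN (L : LS F A X S y l χ) : Subalgebra.centralizer F {y} →ₐ[F] L.toGS.S1 :=
  AlgHom.ofLinearMap
    { toFun := fun a => ⟨L.p 1 ⟨a, mem_Nx χ (a : A) a.2⟩, L.pc 1 _⟩
      map_add' := fun a b => Subtype.ext (by
        show L.p 1 ⟨(a : A) + b, _⟩ = L.p 1 ⟨a, _⟩ + L.p 1 ⟨b, _⟩
        rw [← map_add]
        rfl)
      map_smul' := fun r a => Subtype.ext (by
        show L.p 1 ⟨r • (a : A), _⟩ = r • L.p 1 ⟨a, _⟩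
        rw [← map_smul]
        rfl) }
    (Subtype.ext L.one)
    (fun a b => Subtype.ext (by
      show L.p 1 ⟨(a : A) * b, _⟩ = L.p 1 ⟨a, _⟩ * L.p 1 ⟨b, _⟩
      rw [L.mul]
      exact p_cong L (mul_one 1).symm _ _ _))

theorem fN_surj (L : LS F A X S y l χ) : Function.Surjective (fN L) := by
  rintro ⟨s, hs⟩
  obtain ⟨a, ha⟩ := L.ps 1 s
  have h1 : y * (a : A) = χ 1 • ((a : A) * y) := a.2
  rw [map_one, one_smul] at h1
  refine ⟨⟨a, (mem_N _).mpr h1⟩, Subtype.ext ?_⟩
  show L.p 1 ⟨(a : A), _⟩ = s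
  have h2 : L.p 1 ⟨(a : A), mem_Nx χ (a : A) ((mem_N _).mpr h1)⟩ = L.p 1 a := rfl
  rw [h2, ha]
  exact hs

theorem fN_ker (L : LS F A X S y l χ) (L' : LS F A X' S' y l χ')
    (a : Subalgebra.centralizer F {y}) : fN L a = 0 ↔ fN L' a = 0 := by
  have h1 : fN L a = 0 ↔ (a : A) ∈ Jx y l χ 1 := by
    rw [← L.ker 1 ⟨a, mem_Nx χ (a : A) a.2⟩, Subtype.ext_iff]
    rfl
  have h2 : fN L' a = 0 ↔ (a : A) ∈ Jx y l χ' 1 := by
    rw [← L'.ker 1 ⟨a, mem_Nx χ' (a : A) a.2⟩, Subtype.ext_iff]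
    rfl
  have h3 : Jx y l χ 1 = Jx y l χ' 1 := by
    have h4 : ∀ n : A, n ∈ Nx y χ 1 ↔ n ∈ Nx y χ' 1 := by
      intro n
      show y * n = χ 1 • (n * y) ↔ y * n = χ' 1 • (n * y)
      rw [map_one, map_one]
    unfold Jx
    rw [map_one, map_one]
    congr 1
    ext b
    simp only [Set.mem_ofPred_eq, h4]
  rw [h1, h2, h3]

theorem one_part (L : LS F A X S y l χ) (L' : LS F A X' S' y l χ') :
    Nonempty (L.toGS.S1 ≃ₐ[F] L'.toGS.S1) := by
  have ex : ∀ s : L.toGS.S1, ∃ t : L'.toGS.S1, ∃ a, fN L a = s ∧ fN L' a = t := by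
    intro s
    obtain ⟨a, ha⟩ := fN_surj L s
    exact ⟨fN L' a, a, ha, rfl⟩
  choose g hg using ex
  have key : ∀ a, g (fN L a) = fN L' a := by
    intro a
    obtain ⟨b, hb1, hb2⟩ := hg (fN L a)
    have h1 : fN L (b - a) = 0 := by rw [map_sub, hb1, sub_self]
    have h2 := (fN_ker L L' _).mp h1
    rw [map_sub, hb2, sub_eq_zero] at h2
    exact h2
  let G : L.toGS.S1 →ₐ[F] L'.toGS.S1 := AlgHom.ofLinearMap
    { toFun := g
      map_add' := by
        intro s t
        obtain ⟨a, rfl⟩ := fN_surj L s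
        obtain ⟨b, rfl⟩ := fN_surj L t
        rw [← map_add, key, key, key, map_add]
      map_smul' := by
        intro r s
        obtain ⟨a, rfl⟩ := fN_surj L s
        rw [← map_smul, key, key, map_smul, RingHom.id_apply] }
    (by
      show g 1 = 1
      rw [← map_one (fN L), key, map_one])
    (by
      intro s t
      obtain ⟨a, rfl⟩ := fN_surj L s
      obtain ⟨b, rfl⟩ := fN_surj L t
      show g (fN L a * fN L b) = g (fN L a) * g (fN L b)
      rw [← map_mul, key, key, key, map_mul])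
  have hG : ∀ s, G s = g s := fun s => rfl
  refine ⟨AlgEquiv.ofBijective G ⟨?_, ?_⟩⟩
  · rw [injective_iff_map_eq_zero]
    intro s hs
    obtain ⟨a, rfl⟩ := fN_surj L s
    rw [hG, key] at hs
    exact (fN_ker L L' _).mpr hs
  · intro t
    obtain ⟨a, rfl⟩ := fN_surj L' t
    exact ⟨fN L a, (hG _).trans (key a)⟩

theorem center_eq {B B' : Type} [Ring B] [Algebra F B] [Ring B'] [Algebra F B']
    (e : B ≃ₐ[F] B') :
    Module.finrank F (Subalgebra.center F B) = Module.finrank F (Subalgebra.center F B') := by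
  have h1 : (Subalgebra.toSubmodule (Subalgebra.center F B)).map
      (e.toLinearEquiv : B →ₗ[F] B') = Subalgebra.toSubmodule (Subalgebra.center F B') := by
    ext b
    rw [Submodule.mem_map, Subalgebra.mem_toSubmodule, Subalgebra.mem_center_iff]
    constructor
    · rintro ⟨a, ha, rfl⟩ c
      rw [Subalgebra.mem_toSubmodule, Subalgebra.mem_center_iff] at ha
      show c * e a = e a * c
      rw [← e.apply_symm_apply c, ← map_mul, ← map_mul, ha]
    · intro h
      refine ⟨e.symm b, ?_, e.apply_symm_apply b⟩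
      rw [Subalgebra.mem_toSubmodule, Subalgebra.mem_center_iff]
      intro c
      apply e.injective
      rw [map_mul, map_mul, e.apply_symm_apply, h]
  have h2 := LinearEquiv.finrank_map_eq e.toLinearEquiv
    (Subalgebra.toSubmodule (Subalgebra.center F B))
  rw [h1] at h2
  exact h2.symm

end gen

theorem sg1 (sgy : SgyStmt) : Sg1Stmt := by
  intro F V V1 C A S S0 _ _ _ _ _ _ _ _ _ _ _ _ α i θ q0 l Y L hl hq0
  obtain ⟨L0, -⟩ := sgy F V V1 Unit A S0 α i (1 : Unit →* MulAut V1) q0 l Y hl hq0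
  obtain ⟨e⟩ := one_part L0 L
  have h1 : L0.toGS.S1 = ⊤ := by
    rw [eq_top_iff]
    intro s _
    have h2 := L0.cs s
    rw [Fintype.sum_unique] at h2
    exact h2
  have e0 : S0 ≃ₐ[F] L0.toGS.S1 :=
    (Subalgebra.topEquiv.symm : S0 ≃ₐ[F] (⊤ : Subalgebra F S0)).trans
      (Subalgebra.equivOfEq _ _ h1.symm)
  exact center_eq (e0.trans e)

end Pool.Agent.PFE.H84
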